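import Pool.Agent.N226.KZ.Fin

/-!
# Numbers of polygons of given knot types: regularity to all orders, consequences
-/

set_option autoImplicit false
set_option linter.unusedVariables false

namespace Pool.Agent.N226.KZ

open Finset Filter Topology KN

noncomputable section

variable {Q : List Dir → Prop}

/-- **Every class**: pointwise in the length, with a rate function -/
theorem corA (hQ : KClass Q) (hne : ∃ w, SAP w ∧ Q w) {φ : ℕ → ℝ} (R : Rate φ)
    (hup : ∀ᶠ k : ℕ in atTop, pq Q (2 * k) ≤ gr Q ^ (2 * k) * Real.exp (φ (2 * k)))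
    (r : ℕ) (hr : 1 ≤ r) : ∃ δ C : ℝ, 0 < δ ∧ 0 < C ∧ ∀ᶠ k : ℕ in atTop,
      |Real.log (pq Q (2 * k) / gr Q ^ (2 * k))| ≤ δ * (2 * k) →
      |∑ i ∈ range (r + 1), (-1 : ℝ) ^ i * (r.choose i : ℝ) *
        Real.log (pq Q (2 * k + 2 * i) / gr Q ^ (2 * k + 2 * i))| ≤
        C * Real.sqrt ((φ (2 * k) + |Real.log (pq Q (2 * k) / gr Q ^ (2 * k))|) /
          (2 * k)) ^ r := by
  obtain ⟨g1, -, g2⟩ := gr_bounds Q hQ hne
  obtain ⟨A, C, hA, hC, h⟩ := main_pt hQ hne R hup r hr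
  refine ⟨1 / (2 * A), C, by positivity, hC, ?_⟩
  have h1 : ∀ᶠ n : ℕ in atTop, φ n / n < 1 / (2 * A) := R.lim.eventually_lt_const (by positivity)
  have h2 : Tendsto (fun k : ℕ => 2 * k) atTop atTop :=
    tendsto_atTop_mono (fun k => by simp only [id]; omega) tendsto_id
  filter_upwards [h, h2.eventually h1, class_pos Q hQ hne, eventually_ge_atTop 1] with k hk h3 h4 h5
    h6
  have hk0 : (1 : ℝ) ≤ k := by exact_mod_cast h5
  have hg : 0 < gr Q ^ (2 * k) := by
    have : 0 < gr Q := by linarith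
    positivity
  have hy : 0 < pq Q (2 * k) / gr Q ^ (2 * k) := div_pos h4 hg
  refine hk _ (abs_nonneg _) ?_ ?_
  · have h7 : Real.exp (-|Real.log (pq Q (2 * k) / gr Q ^ (2 * k))|) ≤
        pq Q (2 * k) / gr Q ^ (2 * k) := by
      conv_rhs => rw [← Real.exp_log hy]
      exact Real.exp_le_exp.mpr (neg_abs_le _)
    rw [le_div_iff₀ hg] at h7
    have h8 := mul_le_mul_of_nonneg_left h7
      (Real.exp_pos (|Real.log (pq Q (2 * k) / gr Q ^ (2 * k))|)).le
    rw [← mul_assoc, ← Real.exp_add, add_neg_cancel, Real.exp_zero, one_mul] at h8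
    exact h8
  · push_cast at h3
    rw [div_lt_iff₀ (by linarith)] at h3
    have h7 : A * (φ (2 * k) + |Real.log (pq Q (2 * k) / gr Q ^ (2 * k))|) ≤
        A * (1 / (2 * A) * (2 * k) + 1 / (2 * A) * (2 * k)) := by gcongr
    refine h7.trans (le_of_eq ?_)
    field_simp
    ring

/-- logarithm plus a constant -/
theorem rate_log (c : ℝ) (hc : 0 ≤ c) : Rate (fun n : ℕ => c + Real.log n) := by
  refine ⟨fun m n h => ?_, fun n hn => by linarith, ⟨2, fun n hn => ?_⟩, ?_⟩
  · have : Real.log (m : ℝ) ≤ Real.log n := by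
      rcases Nat.eq_zero_or_pos m with rfl | hm
      · rw [Nat.cast_zero, Real.log_zero]
        exact Real.log_natCast_nonneg n
      · exact Real.log_le_log (by exact_mod_cast hm) (by exact_mod_cast h)
    linarith
  · have hn' : (2 : ℝ) ≤ n := by exact_mod_cast hn
    have h1 : Real.log ((2 * n : ℕ) : ℝ) ≤ 2 * Real.log n := by
      have h2 : Real.log ((2 * n : ℕ) : ℝ) ≤ Real.log (n ^ 2 : ℝ) := by
        push_cast
        exact Real.log_le_log (by linarith) (by nlinarith)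
      rwa [Real.log_pow, Nat.cast_ofNat] at h2
    linarith
  · have h1 : Tendsto (fun x : ℝ => Real.log x / x) atTop (𝓝 0) := by
      have := Real.isLittleO_log_id_atTop.tendsto_div_nhds_zero
      exact this
    have h2 := (h1.comp tendsto_natCast_atTop_atTop).add (tendsto_const_div_atTop_nhds_zero_nat c)
    rw [add_zero] at h2
    refine h2.congr fun n => ?_
    simp only [Function.comp]
    ring

/-- **Polynomial factors** -/
theorem corP (hQ : KClass Q) (hne : ∃ w, SAP w ∧ Q w) (c : ℝ)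
    (h : ∀ᶠ k : ℕ in atTop,
      |Real.log (pq Q (2 * k) / gr Q ^ (2 * k))| ≤ c * Real.log (2 * k))
    (r : ℕ) (hr : 1 ≤ r) : ∃ C : ℝ, ∀ᶠ k : ℕ in atTop,
      |∑ i ∈ range (r + 1), (-1 : ℝ) ^ i * (r.choose i : ℝ) *
        Real.log (pq Q (2 * k + 2 * i) / gr Q ^ (2 * k + 2 * i))| ≤
        C * Real.sqrt (Real.log (2 * k) / (2 * k)) ^ r := by
  obtain ⟨g1, -, g2⟩ := gr_bounds Q hQ hne
  obtain ⟨c', hc'⟩ : ∃ c' : ℝ, c' = |c| + 1 := ⟨_, rfl⟩
  have hc0 : 1 ≤ c' := by rw [hc']; linarith [abs_nonneg c]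
  have R0 := rate_log 0 le_rfl
  have R : Rate (fun n : ℕ => c' * (0 + Real.log n)) := by
    refine ⟨fun m n h => mul_le_mul_of_nonneg_left (R0.mono h) (by linarith), fun n hn => ?_, ?_, ?_⟩
    · have h1 := half_le_log hn
      nlinarith
    · obtain ⟨D, hD⟩ := R0.dbl
      refine ⟨D, fun n hn => ?_⟩
      have := mul_le_mul_of_nonneg_left (hD n hn) (show 0 ≤ c' by linarith)
      calc _ ≤ _ := this
        _ = _ := by ring
    · have h2 := R0.lim.const_mul c'
      rw [mul_zero] at h2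
      refine h2.congr fun n => ?_
      ring
  have hup : ∀ᶠ k : ℕ in atTop, pq Q (2 * k) ≤
      gr Q ^ (2 * k) * Real.exp (c' * (0 + Real.log ((2 * k : ℕ) : ℝ))) := by
    filter_upwards [h, class_pos Q hQ hne, eventually_ge_atTop 1] with k h1 h2 h3
    have hk0 : (1 : ℝ) ≤ k := by exact_mod_cast h3
    have hg : 0 < gr Q ^ (2 * k) := by
      have : 0 < gr Q := by linarith
      positivity
    have hy : 0 < pq Q (2 * k) / gr Q ^ (2 * k) := div_pos h2 hg
    rw [mul_comm (gr Q ^ (2 * k)), ← div_le_iff₀ hg, ← Real.log_le_iff_le_exp hy]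
    push_cast
    have h4 : 0 ≤ Real.log (2 * (k : ℝ)) := Real.log_nonneg (by linarith)
    calc Real.log (pq Q (2 * k) / gr Q ^ (2 * k)) ≤ c * Real.log (2 * k) :=
          (le_abs_self _).trans h1
      _ ≤ |c| * Real.log (2 * k) := mul_le_mul_of_nonneg_right (le_abs_self c) h4
      _ ≤ c' * (0 + Real.log (2 * k)) := by rw [hc', zero_add]; nlinarith
  obtain ⟨δ, C, hδ, hC, hA⟩ := corA hQ hne R hup r hr
  have hlim : ∀ᶠ k : ℕ in atTop, |c| * Real.log (2 * k) ≤ δ * (2 * k) := by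
    have h1 := R0.lim.const_mul |c|
    rw [mul_zero] at h1
    have h2 : Tendsto (fun k : ℕ => 2 * k) atTop atTop :=
      tendsto_atTop_mono (fun k => by simp only [id]; omega) tendsto_id
    filter_upwards [h2.eventually (h1.eventually_lt_const hδ), eventually_ge_atTop 1] with k h3 h4
    have hk0 : (1 : ℝ) ≤ k := by exact_mod_cast h4
    push_cast at h3
    rw [zero_add, ← mul_div_assoc, div_lt_iff₀ (by linarith)] at h3
    exact h3.le
  refine ⟨C * Real.sqrt (2 * c') ^ r, ?_⟩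
  filter_upwards [hA, hlim, h, eventually_ge_atTop 1] with k h1 h2 h3 h4
  have hk0 : (1 : ℝ) ≤ k := by exact_mod_cast h4
  have hl : 0 ≤ Real.log (2 * (k : ℝ)) := Real.log_nonneg (by linarith)
  have h5 : |Real.log (pq Q (2 * k) / gr Q ^ (2 * k))| ≤ |c| * Real.log (2 * k) :=
    h3.trans (mul_le_mul_of_nonneg_right (le_abs_self c) hl)
  refine (h1 (h5.trans h2)).trans ?_
  rw [mul_assoc, ← mul_pow]
  refine mul_le_mul_of_nonneg_left (pow_le_pow_left₀ (Real.sqrt_nonneg _) ?_ r) hC.le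
  rw [← Real.sqrt_mul (by linarith)]
  apply Real.sqrt_le_sqrt
  rw [← mul_div_assoc]
  apply div_le_div_of_nonneg_right _ (by linarith)
  push_cast
  rw [zero_add, hc']
  nlinarith

/-- **The asymptotic form** -/
theorem corF (hQ : KClass Q) (hne : ∃ w, SAP w ∧ Q w) {A α : ℝ} (hA : 0 < A)
    (h : Tendsto (fun k : ℕ => pq Q (2 * k) / ((2 * k : ℝ) ^ (α - 3) * gr Q ^ (2 * k))) atTop
      (𝓝 A)) : ∃ c : ℝ, ∀ᶠ k : ℕ in atTop,
      |Real.log (pq Q (2 * k) / gr Q ^ (2 * k))| ≤ c * Real.log (2 * k) := by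
  obtain ⟨g1, -, g2⟩ := gr_bounds Q hQ hne
  have h1 := (h.log hA.ne').abs
  have h2 : ∀ᶠ k : ℕ in atTop,
      |Real.log (pq Q (2 * k) / ((2 * k : ℝ) ^ (α - 3) * gr Q ^ (2 * k)))| < |Real.log A| + 1 :=
    h1.eventually_lt_const (by linarith)
  refine ⟨|Real.log A| + 1 + |α - 3|, ?_⟩
  filter_upwards [h2, class_pos Q hQ hne, eventually_ge_atTop 2] with k h3 h4 h5
  have hk0 : (2 : ℝ) ≤ k := by exact_mod_cast h5
  have hg : 0 < gr Q ^ (2 * k) := by
    have : 0 < gr Q := by linarith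
    positivity
  have hp : (0 : ℝ) < (2 * k : ℝ) ^ (α - 3) := Real.rpow_pos_of_pos (by linarith) _
  have hl : 1 ≤ Real.log (2 * (k : ℝ)) := by
    rw [Real.le_log_iff_exp_le (by linarith)]
    have := Real.exp_one_lt_d9
    linarith
  have e : Real.log (pq Q (2 * k) / gr Q ^ (2 * k)) =
      Real.log (pq Q (2 * k) / ((2 * k : ℝ) ^ (α - 3) * gr Q ^ (2 * k))) +
        (α - 3) * Real.log (2 * k) := by
    rw [Real.log_div h4.ne' hg.ne', Real.log_div h4.ne' (by positivity),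
      Real.log_mul hp.ne' hg.ne', Real.log_rpow (by linarith)]
    ring
  rw [e]
  calc _ ≤ |Real.log (pq Q (2 * k) / ((2 * k : ℝ) ^ (α - 3) * gr Q ^ (2 * k)))| +
        |(α - 3) * Real.log (2 * k)| := abs_add_le _ _
    _ ≤ (|Real.log A| + 1) * Real.log (2 * k) + |α - 3| * Real.log (2 * k) := by
        rw [abs_mul, abs_of_nonneg (show 0 ≤ Real.log (2 * (k : ℝ)) by linarith)]
        have : 0 ≤ |Real.log A| := abs_nonneg _
        nlinarith
    _ = _ := by ring

/-- there is a rate function for every class -/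
theorem exists_rate (hQ : KClass Q) (hne : ∃ w, SAP w ∧ Q w) : ∃ φ : ℕ → ℝ, Rate φ ∧
    ∀ᶠ k : ℕ in atTop, pq Q (2 * k) ≤ gr Q ^ (2 * k) * Real.exp (φ (2 * k)) := by
  obtain ⟨g1, -, g2⟩ := gr_bounds Q hQ hne
  have hμ : 0 < gr Q := by linarith
  obtain ⟨G, hG⟩ : ∃ G : ℕ → ℝ, G = fun m => max 0 (Real.log ((a Q m : ℝ) / gr Q ^ m)) :=
    ⟨_, rfl⟩
  have hG0 : ∀ m, 0 ≤ G m := fun m => by rw [hG]; exact le_max_left _ _
  -- `G` is sublinear
  have hlim : ∀ ε : ℝ, 0 < ε → ∃ B : ℝ, 0 ≤ B ∧ ∀ m : ℕ, G m ≤ B + ε * ((m : ℝ) + 1) := by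
    intro ε hε
    obtain ⟨C, hC⟩ := GEN.upper S_five_proof Q (by linarith) (Real.exp ε - 1)
      (by have := Real.add_one_lt_exp hε.ne'; linarith)
    refine ⟨Real.log (|C| + 1), Real.log_nonneg (by linarith [abs_nonneg C]), fun m => ?_⟩
    rw [hG]
    refine max_le ?_ ?_
    · have := Real.log_nonneg (show (1 : ℝ) ≤ |C| + 1 by linarith [abs_nonneg C])
      positivity
    · have h1 := hC m
      rw [add_sub_cancel, mul_pow, ← Real.exp_nat_mul] at h1
      have hgm : 0 < gr Q ^ m := by positivity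
      rcases Nat.eq_zero_or_pos (a Q m) with h0 | h0
      · rw [h0, Nat.cast_zero, zero_div, Real.log_zero]
        have := Real.log_nonneg (show (1 : ℝ) ≤ |C| + 1 by linarith [abs_nonneg C])
        positivity
      · have h0' : (0 : ℝ) < a Q m := by exact_mod_cast h0
        rw [Real.log_le_iff_le_exp (by positivity), Real.exp_add,
          Real.exp_log (by linarith [abs_nonneg C]), div_le_iff₀ hgm]
        refine h1.trans ?_
        have h2 : Real.exp (m * ε) ≤ Real.exp (ε * ((m : ℝ) + 1)) := by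
          apply Real.exp_le_exp.mpr
          nlinarith
        calc C * (Real.exp (m * ε) * gr Q ^ m)
            ≤ (|C| + 1) * (Real.exp (m * ε) * gr Q ^ m) :=
              mul_le_mul_of_nonneg_right (by linarith [le_abs_self C]) (by positivity)
          _ ≤ (|C| + 1) * (Real.exp (ε * ((m : ℝ) + 1)) * gr Q ^ m) := by gcongr
          _ = _ := by ring
  -- the regularisation
  obtain ⟨t, ht⟩ : ∃ t : ℕ → ℕ → ℝ,
      t = fun (n m : ℕ) => min 1 (((n : ℝ) + 1) / ((m : ℝ) + 1)) * G m := ⟨_, rfl⟩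
  have ht0 : ∀ n m, 0 ≤ t n m := fun n m => by
    rw [ht]
    exact mul_nonneg (le_min zero_le_one (by positivity)) (hG0 m)
  have ht1 : ∀ n m, t n m ≤ G m := fun n m => by
    rw [ht]
    exact mul_le_of_le_one_left (hG0 m) (min_le_left _ _)
  have hbd : ∀ ε : ℝ, 0 < ε → ∃ B : ℝ, 0 ≤ B ∧ ∀ n m : ℕ, t n m ≤ B + ε * ((n : ℝ) + 1) := by
    intro ε hε
    obtain ⟨B, hB0, hB⟩ := hlim ε hε
    refine ⟨B, hB0, fun n m => ?_⟩
    have hn0 : (0 : ℝ) ≤ n := Nat.cast_nonneg n
    have hm0 : (0 : ℝ) ≤ m := Nat.cast_nonneg m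
    have h1 := hB m
    rw [ht]
    simp only
    have e1 : min 1 (((n : ℝ) + 1) / ((m : ℝ) + 1)) * G m ≤
        min 1 (((n : ℝ) + 1) / ((m : ℝ) + 1)) * (B + ε * ((m : ℝ) + 1)) :=
      mul_le_mul_of_nonneg_left h1 (le_min zero_le_one (by positivity))
    have e2 : min 1 (((n : ℝ) + 1) / ((m : ℝ) + 1)) * B ≤ B :=
      mul_le_of_le_one_left hB0 (min_le_left _ _)
    have e3 : min 1 (((n : ℝ) + 1) / ((m : ℝ) + 1)) * (ε * ((m : ℝ) + 1)) ≤
        ε * ((n : ℝ) + 1) := by
      calc min 1 (((n : ℝ) + 1) / ((m : ℝ) + 1)) * (ε * ((m : ℝ) + 1))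
          ≤ ((n : ℝ) + 1) / ((m : ℝ) + 1) * (ε * ((m : ℝ) + 1)) :=
            mul_le_mul_of_nonneg_right (min_le_right _ _) (by positivity)
        _ = _ := by field_simp
    calc _ ≤ _ := e1
      _ = min 1 (((n : ℝ) + 1) / ((m : ℝ) + 1)) * B +
          min 1 (((n : ℝ) + 1) / ((m : ℝ) + 1)) * (ε * ((m : ℝ) + 1)) := by ring
      _ ≤ _ := add_le_add e2 e3
  have hBdd : ∀ n, BddAbove (Set.range (t n)) := by
    intro n
    obtain ⟨B, hB0, hB⟩ := hbd 1 one_pos
    exact ⟨B + 1 * ((n : ℝ) + 1), by rintro _ ⟨m, rfl⟩; exact hB n m⟩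
  obtain ⟨ψ, hψ⟩ : ∃ ψ : ℕ → ℝ, ψ = fun n => ⨆ m, t n m := ⟨_, rfl⟩
  have hψle : ∀ n m, t n m ≤ ψ n := fun n m => by rw [hψ]; exact le_ciSup (hBdd n) m
  have hψsup : ∀ n (B : ℝ), (∀ m, t n m ≤ B) → ψ n ≤ B := fun n B h => by
    rw [hψ]; exact ciSup_le h
  have hψ0 : ∀ n, 0 ≤ ψ n := fun n => (ht0 n 0).trans (hψle n 0)
  have hψmono : Monotone ψ := by
    intro n n' h
    refine hψsup n _ fun m => le_trans ?_ (hψle n' m)
    rw [ht]
    have h' : (n : ℝ) ≤ n' := by exact_mod_cast h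
    refine mul_le_mul_of_nonneg_right (min_le_min le_rfl ?_) (hG0 m)
    gcongr
  have hψdbl : ∀ n, ψ (2 * n) ≤ 2 * ψ n := by
    intro n
    refine hψsup _ _ fun m => ?_
    have h1 := hψle n m
    have h2 : t (2 * n) m ≤ 2 * t n m := by
      rw [ht]
      simp only
      rw [← mul_assoc]
      refine mul_le_mul_of_nonneg_right ?_ (hG0 m)
      rcases le_total 1 (((n : ℝ) + 1) / ((m : ℝ) + 1)) with h | h
      · rw [min_eq_left h]
        exact (min_le_left _ _).trans (by norm_num)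
      · rw [min_eq_right h]
        refine (min_le_right _ _).trans ?_
        rw [← mul_div_assoc]
        apply div_le_div_of_nonneg_right _ (by positivity)
        push_cast
        linarith
    linarith
  have hψlim : Tendsto (fun n : ℕ => ψ n / n) atTop (𝓝 0) := by
    rw [Metric.tendsto_atTop]
    intro ε hε
    obtain ⟨B, hB0, hB⟩ := hbd (ε / 4) (by linarith)
    obtain ⟨N, hN⟩ := exists_nat_gt (4 * B / ε)
    refine ⟨N + 1, fun n hn => ?_⟩
    have hn1 : (N : ℝ) + 1 ≤ n := by exact_mod_cast hn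
    have hN0 : (0 : ℝ) ≤ N := Nat.cast_nonneg N
    have hn0 : (0 : ℝ) < n := by linarith
    rw [Real.dist_eq, sub_zero, abs_of_nonneg (div_nonneg (hψ0 n) hn0.le), div_lt_iff₀ hn0]
    have h1 := hψsup n _ (hB n)
    have h2 : 4 * B < ε * n := by
      rw [div_lt_iff₀ hε] at hN
      nlinarith
    nlinarith
  have R0 := rate_log 0 le_rfl
  refine ⟨fun n => (0 + Real.log n) + ψ n, ⟨fun m n h => add_le_add (R0.mono h) (hψmono h),
    fun n hn => ?_, ⟨2, fun n hn => ?_⟩, ?_⟩, ?_⟩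
  · have := hψ0 n
    linarith
  · have h1 := hψdbl n
    have hn' : (2 : ℝ) ≤ n := by exact_mod_cast hn
    have h2 : Real.log ((2 * n : ℕ) : ℝ) ≤ 2 * Real.log n := by
      have h3 : Real.log ((2 * n : ℕ) : ℝ) ≤ Real.log (n ^ 2 : ℝ) := by
        push_cast
        exact Real.log_le_log (by linarith) (by nlinarith)
      rwa [Real.log_pow, Nat.cast_ofNat] at h3
    linarith
  · have h1 := R0.lim.add hψlim
    rw [add_zero] at h1
    refine h1.congr fun n => ?_
    ring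
  · filter_upwards [class_pos Q hQ hne, eventually_ge_atTop 1] with k h1 h2
    have hk0 : (1 : ℝ) ≤ k := by exact_mod_cast h2
    have hg : 0 < gr Q ^ (2 * k) := by positivity
    have h3 : G (2 * k) ≤ ψ (2 * k) := by
      refine le_trans (le_of_eq ?_) (hψle (2 * k) (2 * k))
      rw [ht]
      simp only
      rw [div_self (by positivity), min_self, one_mul]
    have h4 : Real.log ((a Q (2 * k) : ℝ) / gr Q ^ (2 * k)) ≤ ψ (2 * k) := by
      refine le_trans ?_ h3
      rw [hG]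
      exact le_max_right _ _
    have h5 := GEN.pn_le_a Q k (by omega)
    have ha : 0 < (a Q (2 * k) : ℝ) := h1.trans_le h5
    rw [Real.log_le_iff_le_exp (by positivity), div_le_iff₀ hg] at h4
    have h6 : Real.exp (ψ (2 * k)) ≤
        Real.exp ((0 + Real.log ((2 * k : ℕ) : ℝ)) + ψ (2 * k)) := by
      apply Real.exp_le_exp.mpr
      have := Real.log_natCast_nonneg (2 * k)
      linarith
    calc pq Q (2 * k) ≤ Real.exp (ψ (2 * k)) * gr Q ^ (2 * k) := h5.trans h4
      _ ≤ Real.exp ((0 + Real.log ((2 * k : ℕ) : ℝ)) + ψ (2 * k)) * gr Q ^ (2 * k) :=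
          mul_le_mul_of_nonneg_right h6 hg.le
      _ = _ := by ring

end

end Pool.Agent.N226.KZ
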