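import Pool.Agent.N226.KZ.Cor
import Pool.Agent.TH296.KQ.Main

/-!
# Classes closed under connected sums: regularity to all orders
-/

set_option autoImplicit false
set_option linter.unusedVariables false

namespace Pool.Agent.N226.KZ

open Finset Filter Topology KN

noncomputable section

variable {Q : List Dir → Prop}

theorem low_log (hQ : KClass Q) (hne : ∃ w, SAP w ∧ Q w) (hc : CSum Q) :
    ∀ᶠ k : ℕ in atTop,
      1 / 2 * Real.log (2 * k) ≤ Real.log (gr Q ^ (2 * k) / pq Q (2 * k)) := by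
  obtain ⟨C0, hC0⟩ := (KN.KQ.class_all hQ hc hne).1
  obtain ⟨g1, -, g2⟩ := gr_bounds Q hQ hne
  have h1 : Tendsto (fun k : ℕ => (2 * (k : ℝ)) ^ (1 / 6 : ℝ)) atTop atTop :=
    (tendsto_rpow_atTop (by norm_num)).comp
      (tendsto_natCast_atTop_atTop.const_mul_atTop (by norm_num : (0 : ℝ) < 2))
  filter_upwards [h1.eventually_ge_atTop C0, class_pos Q hQ hne, eventually_ge_atTop 1] with k h2
    h3 h4
  have hk0 : (1 : ℝ) ≤ k := by exact_mod_cast h4
  have hk1 : (0 : ℝ) < 2 * k := by linarith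
  have hg : 0 < gr Q ^ (2 * k) := by
    have : 0 < gr Q := by linarith
    positivity
  have h5 := hC0 (2 * k) (by omega)
  push_cast at h5
  have e : 1 / 2 * Real.log (2 * k) = Real.log ((2 * (k : ℝ)) ^ (1 / 2 : ℝ)) := by
    rw [Real.log_rpow hk1]
  rw [e]
  apply Real.log_le_log (by positivity)
  rw [le_div_iff₀ h3]
  have e2 : (2 * (k : ℝ)) ^ (1 / 2 : ℝ) * ((2 * (k : ℝ)) ^ (1 / 6 : ℝ) *
      (2 * (k : ℝ)) ^ (-(2 / 3) : ℝ)) = 1 := by
    rw [← Real.rpow_add hk1, ← Real.rpow_add hk1]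
    norm_num
  calc (2 * (k : ℝ)) ^ (1 / 2 : ℝ) * pq Q (2 * k)
      ≤ (2 * (k : ℝ)) ^ (1 / 2 : ℝ) * (C0 * (2 * (k : ℝ)) ^ (-(2 / 3) : ℝ) * gr Q ^ (2 * k)) := by
        gcongr
    _ ≤ (2 * (k : ℝ)) ^ (1 / 2 : ℝ) * ((2 * (k : ℝ)) ^ (1 / 6 : ℝ) *
        (2 * (k : ℝ)) ^ (-(2 / 3) : ℝ) * gr Q ^ (2 * k)) := by
        gcongr
    _ = ((2 * (k : ℝ)) ^ (1 / 2 : ℝ) * ((2 * (k : ℝ)) ^ (1 / 6 : ℝ) *
        (2 * (k : ℝ)) ^ (-(2 / 3) : ℝ))) * gr Q ^ (2 * k) := by ring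
    _ = _ := by rw [e2, one_mul]

/-- **Classes closed under connected sums** -/
theorem corC (hQ : KClass Q) (hne : ∃ w, SAP w ∧ Q w) (hc : CSum Q)
    (r : ℕ) (hr : 1 ≤ r) : ∃ C : ℝ, ∀ᶠ k : ℕ in atTop,
      |∑ i ∈ range (r + 1), (-1 : ℝ) ^ i * (r.choose i : ℝ) *
        Real.log (pq Q (2 * k + 2 * i) / gr Q ^ (2 * k + 2 * i))| ≤
        C * Real.sqrt (Real.log (gr Q ^ (2 * k) / pq Q (2 * k)) / (2 * k)) ^ r := by
  obtain ⟨g1, -, g2⟩ := gr_bounds Q hQ hne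
  have hlow := low_log hQ hne hc
  have hup : ∀ᶠ k : ℕ in atTop, pq Q (2 * k) ≤
      gr Q ^ (2 * k) * Real.exp (0 + Real.log ((2 * k : ℕ) : ℝ)) := by
    filter_upwards [hlow, class_pos Q hQ hne, eventually_ge_atTop 1] with k h1 h2 h3
    have hk0 : (1 : ℝ) ≤ k := by exact_mod_cast h3
    have hg : 0 < gr Q ^ (2 * k) := by
      have : 0 < gr Q := by linarith
      positivity
    have h4 : 0 ≤ Real.log (2 * (k : ℝ)) := Real.log_nonneg (by linarith)
    have h5 : 0 ≤ Real.log (gr Q ^ (2 * k) / pq Q (2 * k)) := by linarith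
    have h6 : 1 ≤ gr Q ^ (2 * k) / pq Q (2 * k) := by
      by_contra hcon
      push Not at hcon
      have h7 := Real.log_neg (div_pos hg h2) hcon
      linarith
    rw [le_div_iff₀ h2, one_mul] at h6
    push_cast
    have h8 : 1 ≤ Real.exp (0 + Real.log (2 * (k : ℝ))) := Real.one_le_exp (by linarith)
    calc pq Q (2 * k) ≤ gr Q ^ (2 * k) * 1 := by linarith
      _ ≤ _ := mul_le_mul_of_nonneg_left h8 hg.le
  obtain ⟨δ, C, hδ, hC, hA⟩ := corA hQ hne (rate_log 0 le_rfl) hup r hr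
  have hlim : ∀ᶠ k : ℕ in atTop, |Real.log (pq Q (2 * k) / gr Q ^ (2 * k))| ≤ δ * (2 * k) := by
    have h1 := (Pool.Agent.R945.KR.log_csum Q hQ hne hc).abs
    rw [abs_zero] at h1
    filter_upwards [h1.eventually_lt_const (show 0 < δ * 2 by linarith),
      eventually_ge_atTop 1] with k h2 h3
    have hk0 : (1 : ℝ) ≤ k := by exact_mod_cast h3
    rw [abs_div, abs_of_nonneg (show (0 : ℝ) ≤ k by linarith), div_lt_iff₀ (by linarith)] at h2
    unfold TH966.KS.yq at h2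
    linarith
  refine ⟨C * Real.sqrt 3 ^ r, ?_⟩
  filter_upwards [hA, hlim, hlow, class_pos Q hQ hne, eventually_ge_atTop 1] with k h1 h2 h3 h4 h5
  have hk0 : (1 : ℝ) ≤ k := by exact_mod_cast h5
  have hg : 0 < gr Q ^ (2 * k) := by
    have : 0 < gr Q := by linarith
    positivity
  have hl : 0 ≤ Real.log (2 * (k : ℝ)) := Real.log_nonneg (by linarith)
  have e : |Real.log (pq Q (2 * k) / gr Q ^ (2 * k))| =
      Real.log (gr Q ^ (2 * k) / pq Q (2 * k)) := by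
    rw [← inv_div, Real.log_inv, abs_neg, abs_of_nonneg (by linarith)]
  refine (h1 h2).trans ?_
  rw [mul_assoc, ← mul_pow]
  refine mul_le_mul_of_nonneg_left (pow_le_pow_left₀ (Real.sqrt_nonneg _) ?_ r) hC.le
  rw [← Real.sqrt_mul (by norm_num), e]
  apply Real.sqrt_le_sqrt
  rw [← mul_div_assoc]
  apply div_le_div_of_nonneg_right _ (by linarith)
  push_cast
  linarith

end

end Pool.Agent.N226.KZ
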