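import Pool.Agent.N226.KZ.Sys
import Pool.Agent.N835.EG.Lgn
import Pool.Agent.R945.KR.Kn

/-!
# Numbers of polygons of given knot types: regularity to all orders
-/

set_option autoImplicit false
set_option linter.unusedVariables false

namespace Pool.Agent.N226.KZ

open Finset Filter Topology KN Pool.Agent.N929.EG
open scoped Classical

noncomputable section

variable {Q : List Dir → Prop} {Y : TS (List Z3) (List Z3 × List Z3)}

theorem a_pq (Q : List Dir → Prop) {k : ℕ} (hk : 1 ≤ k) :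
    (a Q (2 * k) : ℝ) = pq Q (2 * k) * (2 * (2 * (k : ℝ))) := by
  have : (0 : ℝ) < k := by exact_mod_cast hk
  unfold pq
  push_cast
  field_simp

/-- a rate function: at least `log n`, monotone, doubling, `o(n)` -/
structure Rate (φ : ℕ → ℝ) : Prop where
  mono : Monotone φ
  log : ∀ n : ℕ, 2 ≤ n → Real.log n ≤ φ n
  dbl : ∃ D : ℝ, ∀ n : ℕ, 2 ≤ n → φ (2 * n) ≤ D * φ n
  lim : Tendsto (fun n : ℕ => φ n / n) atTop (𝓝 0)

/-- upper bound for the numbers of objects -/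
theorem up_gen (hQ : KClass Q) (hne : ∃ w, SAP w ∧ Q w) (H : SysQ Q Y) {φ : ℕ → ℝ}
    (hup : ∀ᶠ k : ℕ in atTop, pq Q (2 * k) ≤ gr Q ^ (2 * k) * Real.exp (φ (2 * k))) :
    ∃ (C1 : ℝ) (N : ℕ), 1 ≤ C1 ∧ (∀ m : ℕ, m < N → ((Y.K m).card : ℝ) ≤ C1) ∧
      ∀ m : ℕ, N ≤ m →
        ((Y.K m).card : ℝ) ≤ C1 * ((m : ℝ) + 1) * Real.exp (φ (m + 1)) * gr Q ^ m := by
  obtain ⟨g1, -, g2⟩ := gr_bounds Q hQ hne
  have hμ : 1 ≤ gr Q := by linarith
  obtain ⟨k0, hk0⟩ := eventually_atTop.1 hup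
  obtain ⟨N, hN⟩ : ∃ N : ℕ, N = 2 * k0 + 4 := ⟨_, rfl⟩
  obtain ⟨C1, hC1⟩ : ∃ C1 : ℝ, C1 = 1 + 2 * gr Q +
      ∑ m ∈ range N, ((Y.K m).card : ℝ) := ⟨_, rfl⟩
  have hs : 0 ≤ ∑ m ∈ range N, ((Y.K m).card : ℝ) := sum_nonneg fun m _ => by positivity
  refine ⟨C1, N, by rw [hC1]; linarith, fun m h => ?_, fun m h => ?_⟩
  · have e1 : ((Y.K m).card : ℝ) ≤ ∑ m ∈ range N, ((Y.K m).card : ℝ) :=
      single_le_sum (f := fun m => ((Y.K m).card : ℝ)) (fun m _ => by positivity)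
        (mem_range.2 h)
    rw [hC1]; linarith
  · rw [card_eq H (by omega)]
    have hC0 : 0 ≤ C1 := by rw [hC1]; linarith
    have hμm : 0 < gr Q ^ m := by positivity
    have he := Real.exp_pos (φ (m + 1))
    rcases Nat.even_or_odd' m with ⟨j, hj | hj⟩
    · rw [a_odd Q (by omega)]
      rw [Nat.cast_zero]
      positivity
    · have hk : m + 1 = 2 * (j + 1) := by omega
      have hkc : (m : ℝ) + 1 = 2 * ((j + 1 : ℕ) : ℝ) := by exact_mod_cast hk
      have h1 := hk0 (j + 1) (by omega)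
      rw [← hk] at h1
      have h2 : (a Q (m + 1) : ℝ) = pq Q (m + 1) * (2 * ((m : ℝ) + 1)) := by
        rw [hk, a_pq Q (by omega), hkc]
      rw [h2]
      have e1 : pq Q (m + 1) * (2 * ((m : ℝ) + 1)) ≤
          gr Q ^ (m + 1) * Real.exp (φ (m + 1)) * (2 * ((m : ℝ) + 1)) :=
        mul_le_mul_of_nonneg_right h1 (by positivity)
      refine e1.trans ?_
      have e2 : gr Q ^ (m + 1) * Real.exp (φ (m + 1)) * (2 * ((m : ℝ) + 1)) =
          (2 * gr Q) * (((m : ℝ) + 1) * Real.exp (φ (m + 1)) * gr Q ^ m) := by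
        rw [pow_succ]
        ring
      have e3 : C1 * ((m : ℝ) + 1) * Real.exp (φ (m + 1)) * gr Q ^ m =
          C1 * (((m : ℝ) + 1) * Real.exp (φ (m + 1)) * gr Q ^ m) := by ring
      rw [e2, e3]
      refine mul_le_mul_of_nonneg_right ?_ (by positivity)
      rw [hC1]
      linarith

theorem half_le_log {n : ℕ} (hn : 2 ≤ n) : 0.5 ≤ Real.log (n : ℝ) := by
  have hn' : (2 : ℝ) ≤ n := by exact_mod_cast hn
  have := Real.log_two_gt_d9
  have h3 : Real.log 2 ≤ Real.log n := Real.log_le_log (by norm_num) hn'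
  linarith

theorem rate_pos {φ : ℕ → ℝ} (R : Rate φ) {n : ℕ} (hn : 2 ≤ n) : 0.5 ≤ φ n :=
  (half_le_log hn).trans (R.log n hn)

/-- the doubling constant is at least one -/
theorem rate_dbl {φ : ℕ → ℝ} (R : Rate φ) : ∃ D : ℝ, 1 ≤ D ∧ ∀ n : ℕ, 2 ≤ n →
    φ (2 * n) ≤ D * φ n := by
  obtain ⟨D, hD⟩ := R.dbl
  refine ⟨max D 1, le_max_right _ _, fun n hn => (hD n hn).trans ?_⟩
  have := rate_pos R hn
  exact mul_le_mul_of_nonneg_right (le_max_left _ _) (by linarith)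

theorem rate_phi {φ : ℕ → ℝ} (R : Rate φ) {K₁ : ℝ} (h : 1 ≤ K₁) :
    Phi (fun n => K₁ * φ n) := by
  obtain ⟨D, hD1, hD⟩ := rate_dbl R
  constructor
  · intro n hn
    have h0 := rate_pos R hn
    have h1 := R.log n hn
    nlinarith
  · refine ⟨D, hD1, fun n m hn hnm hm => ?_⟩
    have h1 : φ m ≤ D * φ n := (R.mono hm).trans (hD n hn)
    calc K₁ * φ m ≤ K₁ * (D * φ n) := mul_le_mul_of_nonneg_left h1 (by linarith)
      _ = _ := by ring
  · have h2 := R.lim.const_mul K₁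
    rw [mul_zero] at h2
    refine h2.congr fun n => ?_
    ring

theorem gr_sys (hQ : KClass Q) (hne : ∃ w, SAP w ∧ Q w) (H : SysQ Q Y) {φ : ℕ → ℝ}
    (R : Rate φ)
    (hup : ∀ᶠ k : ℕ in atTop, pq Q (2 * k) ≤ gr Q ^ (2 * k) * Real.exp (φ (2 * k))) :
    ∃ K₁ : ℝ, 1 ≤ K₁ ∧ Gr Y (gr Q) (fun n => K₁ * φ n) := by
  obtain ⟨g1, -, g2⟩ := gr_bounds Q hQ hne
  obtain ⟨C1, N, hC1, hupS, hupL⟩ := up_gen hQ hne H hup
  obtain ⟨D, hD1, hD⟩ := rate_dbl R
  have hlC : 0 ≤ Real.log C1 := Real.log_nonneg hC1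
  obtain ⟨K₁, hK₁⟩ : ∃ K₁ : ℝ, K₁ = 1 + 2 * Real.log C1 + 3 + D ^ 2 := ⟨_, rfl⟩
  have hK1 : 1 ≤ K₁ := by rw [hK₁]; nlinarith
  refine ⟨K₁, hK1, by linarith, rate_phi R hK1, fun n m hn hm => ?_, patQ hQ hne H⟩
  have hn' : (2 : ℝ) ≤ n := by exact_mod_cast hn
  have hm' : (m : ℝ) ≤ 2 * n := by exact_mod_cast hm
  have hl := half_le_log hn
  have hp := rate_pos R hn
  have hlp := R.log n hn
  have hm0 : (0 : ℝ) ≤ m := Nat.cast_nonneg m
  have hμ1 : 1 ≤ gr Q := by linarith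
  have hμm : 1 ≤ gr Q ^ m := one_le_pow₀ hμ1
  have h3 : C1 ≤ Real.exp (2 * Real.log C1 * φ n) := by
    have e : C1 = Real.exp (Real.log C1) := (Real.exp_log (by linarith)).symm
    conv_lhs => rw [e]
    apply Real.exp_le_exp.mpr
    nlinarith
  rcases Nat.lt_or_ge m N with h | h
  · have h4 := hupS m h
    have h5 : Real.exp (2 * Real.log C1 * φ n) ≤ Real.exp (K₁ * φ n) := by
      apply Real.exp_le_exp.mpr
      apply mul_le_mul_of_nonneg_right _ (by linarith)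
      rw [hK₁]
      nlinarith
    have h6 := Real.exp_pos (K₁ * φ n)
    calc ((Y.K m).card : ℝ) ≤ Real.exp (K₁ * φ n) := by linarith
      _ = 1 * Real.exp (K₁ * φ n) := by ring
      _ ≤ _ := mul_le_mul_of_nonneg_right hμm h6.le
  · have h1 : (m : ℝ) + 1 ≤ (n : ℝ) ^ 3 := by nlinarith [mul_self_nonneg ((n : ℝ) - 2)]
    have h2 : (m : ℝ) + 1 ≤ Real.exp (3 * φ n) := by
      refine h1.trans ?_
      have e : (n : ℝ) ^ 3 = Real.exp (3 * Real.log n) := by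
        rw [← Real.exp_log (show (0 : ℝ) < (n : ℝ) ^ 3 by positivity), Real.log_pow]
        norm_num
      rw [e]
      apply Real.exp_le_exp.mpr
      linarith
    have h4 : φ (m + 1) ≤ D ^ 2 * φ n := by
      have e1 := R.mono (show m + 1 ≤ 2 * (2 * n) by omega)
      have e2 := hD (2 * n) (by omega)
      have e3 := hD n hn
      calc φ (m + 1) ≤ φ (2 * (2 * n)) := e1
        _ ≤ D * φ (2 * n) := e2
        _ ≤ D * (D * φ n) := mul_le_mul_of_nonneg_left e3 (by linarith)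
        _ = _ := by ring
    have h5 : Real.exp (φ (m + 1)) ≤ Real.exp (D ^ 2 * φ n) := Real.exp_le_exp.mpr h4
    have h6 : C1 * ((m : ℝ) + 1) * Real.exp (φ (m + 1)) ≤ Real.exp (K₁ * φ n) := by
      have e : K₁ * φ n = φ n + (2 * Real.log C1 * φ n + 3 * φ n + D ^ 2 * φ n) := by
        rw [hK₁]; ring
      rw [e, Real.exp_add, Real.exp_add, Real.exp_add]
      have h7 : 1 ≤ Real.exp (φ n) := Real.one_le_exp (by linarith)
      have h8 : C1 * ((m : ℝ) + 1) * Real.exp (φ (m + 1)) ≤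
          Real.exp (2 * Real.log C1 * φ n) * Real.exp (3 * φ n) * Real.exp (D ^ 2 * φ n) := by
        gcongr
      have h9 : 0 ≤ Real.exp (2 * Real.log C1 * φ n) * Real.exp (3 * φ n) *
          Real.exp (D ^ 2 * φ n) := by positivity
      nlinarith
    calc ((Y.K m).card : ℝ) ≤ C1 * ((m : ℝ) + 1) * Real.exp (φ (m + 1)) * gr Q ^ m :=
          hupL m h
      _ ≤ Real.exp (K₁ * φ n) * gr Q ^ m := mul_le_mul_of_nonneg_right h6 (by linarith)
      _ = _ := by ring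

/-- **Pointwise regularity to all orders for the numbers of polygons** -/
theorem main_pt (hQ : KClass Q) (hne : ∃ w, SAP w ∧ Q w) {φ : ℕ → ℝ} (R : Rate φ)
    (hup : ∀ᶠ k : ℕ in atTop, pq Q (2 * k) ≤ gr Q ^ (2 * k) * Real.exp (φ (2 * k)))
    (r : ℕ) (hr : 1 ≤ r) : ∃ A C : ℝ, 0 < A ∧ 0 < C ∧ ∀ᶠ k : ℕ in atTop, ∀ L : ℝ, 0 ≤ L →
      gr Q ^ (2 * k) ≤ Real.exp L * pq Q (2 * k) →
      A * (φ (2 * k) + L) ≤ 2 * k →
      |∑ i ∈ range (r + 1), (-1 : ℝ) ^ i * (r.choose i : ℝ) *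
        Real.log (pq Q (2 * k + 2 * i) / gr Q ^ (2 * k + 2 * i))| ≤
        C * Real.sqrt ((φ (2 * k) + L) / (2 * k)) ^ r := by
  obtain ⟨g1, -, g2⟩ := gr_bounds Q hQ hne
  have hμ : 1 ≤ gr Q := by linarith
  have hμ0 : 0 < gr Q := by linarith
  obtain ⟨Y, H⟩ := sysQ Q hQ
  obtain ⟨K₁, hK1, G⟩ := gr_sys hQ hne H R hup
  obtain ⟨A', C', hA', hC', h⟩ := inv_pt Y G (fun _ => 1) 1 0 (by norm_num)
    (fun n w hw => by norm_num) (fun n w hw q hq => rfl) r hr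
  obtain ⟨C2, hC2, hlgn⟩ := Pool.Agent.N835.EG.lgn 2 r hr
  have hpos := eventually_forall_ge_atTop.2 (class_pos Q hQ hne)
  refine ⟨2 * A' ^ 3 * K₁ + 1, C' * Real.sqrt (2 * A' * K₁) ^ r + C2 * Real.sqrt 2 ^ r,
    by positivity, by positivity, ?_⟩
  filter_upwards [hpos, eventually_ge_atTop 3] with k hk hk3 L hL hlow hA
  have hk' : (3 : ℝ) ≤ k := by exact_mod_cast hk3
  obtain ⟨n, hn⟩ : ∃ n : ℕ, n = 2 * k - 1 := ⟨_, rfl⟩
  have hn1 : n + 1 = 2 * k := by omega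
  have hnc : (n : ℝ) + 1 = 2 * k := by exact_mod_cast hn1
  have hn5 : (5 : ℝ) ≤ n := by linarith
  have hlk : 1 ≤ φ (2 * k) := by
    refine le_trans ?_ (R.log (2 * k) (by omega))
    push_cast
    rw [Real.le_log_iff_exp_le (by linarith)]
    have := Real.exp_one_lt_d9
    linarith
  obtain ⟨x, hx⟩ : ∃ x : ℝ, x = (φ (2 * k) + L) / (2 * k) := ⟨_, rfl⟩
  have hx0 : 0 < x := by rw [hx]; positivity
  have hx1 : x * (2 * k) = φ (2 * k) + L := by
    rw [hx]; field_simp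
  rw [← hx]
  -- the numbers
  have hcard : ∀ i : ℕ, (∑ w ∈ Y.K (n + Y.s * i), (1 : ℝ)) =
      pq Q (2 * k + 2 * i) * (2 * (2 * ((k : ℝ) + i))) := by
    intro i
    rw [sum_const, nsmul_eq_mul, mul_one, H.s, card_eq H (by omega)]
    have e : n + 2 * i + 1 = 2 * (k + i) := by omega
    rw [e, a_pq Q (by omega), show 2 * k + 2 * i = 2 * (k + i) by ring]
    push_cast
    ring
  have hcard0 := hcard 0
  rw [mul_zero, add_zero, mul_zero, add_zero, Nat.cast_zero, add_zero] at hcard0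
  have hpk : 0 < pq Q (2 * k) := hk k le_rfl
  -- application
  have hε0 : 0 < Real.sqrt (2 * A' * K₁) * Real.sqrt x := by positivity
  have hsq : (Real.sqrt (2 * A' * K₁) * Real.sqrt x) ^ 2 = 2 * A' * K₁ * x := by
    rw [mul_pow, Real.sq_sqrt (by positivity), Real.sq_sqrt hx0.le]
  have hεA : Real.sqrt (2 * A' * K₁) * Real.sqrt x ≤ 1 / A' := by
    apply le_of_sq_le_sq _ (by positivity)
    rw [hsq, div_pow, one_pow, le_div_iff₀ (by positivity)]
    have h1 : (2 * A' ^ 3 * K₁) * (φ (2 * k) + L) ≤ 2 * k := by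
      have : 0 ≤ φ (2 * k) + L := by linarith
      nlinarith
    rw [← hx1] at h1
    have h2 : (2 * A' ^ 3 * K₁ * x) * (2 * k) ≤ 1 * (2 * k) := by linarith
    have h3 := le_of_mul_le_mul_right h2 (by linarith)
    calc 2 * A' * K₁ * x * A' ^ 2 = 2 * A' ^ 3 * K₁ * x := by ring
      _ ≤ 1 := h3
  have hle : A' * (K₁ * φ n + L) ≤
      (Real.sqrt (2 * A' * K₁) * Real.sqrt x) ^ 2 * n := by
    rw [hsq]
    have h1 : φ n ≤ φ (2 * k) := R.mono (by omega)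
    have h2 : K₁ * φ n + L ≤ K₁ * (φ (2 * k) + L) := by nlinarith
    have h3 : (k : ℝ) ≤ n := by linarith
    calc A' * (K₁ * φ n + L) ≤ A' * (K₁ * (φ (2 * k) + L)) := by gcongr
      _ = A' * K₁ * (x * (2 * k)) := by rw [hx1]; ring
      _ = 2 * A' * K₁ * x * k := by ring
      _ ≤ 2 * A' * K₁ * x * n := by gcongr
  have hlow' : gr Q ^ n ≤ Real.exp L * ∑ w ∈ Y.K n, (1 : ℝ) := by
    rw [hcard0]
    have h1 : gr Q ^ n ≤ gr Q ^ (2 * k) := pow_le_pow_right₀ hμ (by omega)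
    have h2 : Real.exp L * pq Q (2 * k) ≤
        Real.exp L * (pq Q (2 * k) * (2 * (2 * (k : ℝ)))) := by
      have h3 : pq Q (2 * k) * 1 ≤ pq Q (2 * k) * (2 * (2 * (k : ℝ))) :=
        mul_le_mul_of_nonneg_left (by linarith) hpk.le
      rw [mul_one] at h3
      exact mul_le_mul_of_nonneg_left h3 (Real.exp_pos _).le
    linarith
  have h1 := h n _ L (by omega) hε0 hεA hL hle hlow'
  have h2 := hlgn n (by omega)
  -- the logarithms
  have hzero : ∑ i ∈ range (r + 1), (-1 : ℝ) ^ i * (r.choose i : ℝ) *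
      (Real.log 2 + Real.log (gr Q)) = 0 := by
    rw [← sum_mul]
    have h := (add_pow (-1 : ℝ) 1 r).symm
    simp only [one_pow, mul_one] at h
    rw [h, neg_add_cancel, zero_pow (by omega), zero_mul]
  have hsum : ∑ i ∈ range (r + 1), (-1 : ℝ) ^ i * (r.choose i : ℝ) *
        Real.log ((∑ w ∈ Y.K (n + Y.s * i), (1 : ℝ)) / gr Q ^ (n + Y.s * i)) =
      ∑ i ∈ range (r + 1), (-1 : ℝ) ^ i * (r.choose i : ℝ) *
        Real.log (pq Q (2 * k + 2 * i) / gr Q ^ (2 * k + 2 * i)) +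
      ∑ i ∈ range (r + 1), (-1 : ℝ) ^ i * (r.choose i : ℝ) *
        Real.log (((n + 2 * i : ℕ) : ℝ) + 1) := by
    rw [← add_zero (∑ i ∈ range (r + 1), (-1 : ℝ) ^ i * (r.choose i : ℝ) *
        Real.log (((n + 2 * i : ℕ) : ℝ) + 1)), ← hzero, ← sum_add_distrib, ← sum_add_distrib]
    refine sum_congr rfl fun i _ => ?_
    have hpi : 0 < pq Q (2 * k + 2 * i) := by
      rw [show 2 * k + 2 * i = 2 * (k + i) by ring]
      exact hk (k + i) (by omega)
    have e1 : (((n + 2 * i : ℕ) : ℝ) + 1) = 2 * ((k : ℝ) + i) := by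
      push_cast
      linarith
    have hki : 0 < (k : ℝ) + i := by positivity
    rw [hcard i, e1, H.s]
    have e2 : gr Q ^ (2 * k + 2 * i) = gr Q ^ (n + 2 * i) * gr Q := by
      rw [← pow_succ]
      congr 1
      omega
    rw [e2]
    have hg : 0 < gr Q ^ (n + 2 * i) := by positivity
    rw [Real.log_div (by positivity) hg.ne', Real.log_div hpi.ne' (by positivity),
      Real.log_mul hpi.ne' (by positivity), Real.log_mul hg.ne' hμ0.ne',
      Real.log_mul (by norm_num : (2 : ℝ) ≠ 0) (by positivity)]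
    ring
  rw [hsum] at h1
  have h3 : (1 / Real.sqrt (n : ℝ)) ^ r ≤ Real.sqrt 2 ^ r * Real.sqrt x ^ r := by
    rw [← mul_pow]
    refine pow_le_pow_left₀ (by positivity) ?_ r
    rw [← Real.sqrt_mul (by norm_num), ← Real.sqrt_one, ← Real.sqrt_div (by norm_num)]
    apply Real.sqrt_le_sqrt
    rw [div_le_iff₀ (by linarith)]
    have h4 : (k : ℝ) ≤ n := by linarith
    calc (1 : ℝ) ≤ φ (2 * k) + L := by linarith
      _ = 2 * x * k := by rw [← hx1]; ring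
      _ ≤ 2 * x * n := by gcongr
  have h4 : ∀ u v : ℝ, |u + v| ≤ C' * (Real.sqrt (2 * A' * K₁) * Real.sqrt x) ^ r →
      |v| ≤ C2 * (1 / Real.sqrt (n : ℝ)) ^ r →
      |u| ≤ (C' * Real.sqrt (2 * A' * K₁) ^ r + C2 * Real.sqrt 2 ^ r) * Real.sqrt x ^ r := by
    intro u v hu hv
    have e : u = (u + v) - v := by ring
    rw [e]
    calc |u + v - v| ≤ |u + v| + |v| := abs_sub _ _
      _ ≤ C' * (Real.sqrt (2 * A' * K₁) * Real.sqrt x) ^ r +
          C2 * (1 / Real.sqrt (n : ℝ)) ^ r := add_le_add hu hv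
      _ ≤ C' * (Real.sqrt (2 * A' * K₁) * Real.sqrt x) ^ r +
          C2 * (Real.sqrt 2 ^ r * Real.sqrt x ^ r) := by gcongr
      _ = _ := by rw [mul_pow]; ring
  exact h4 _ _ h1 h2

end

end Pool.Agent.N226.KZ
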