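import Pool.Agent.N929.EG.Lst

/-!
# Restriction of a system of local moves to an invariant set of objects
-/

set_option autoImplicit false
set_option linter.unusedVariables false

namespace Pool.Agent.N226.KZ

open Finset Filter Topology Pool.Agent.N929.EG
open scoped Classical

noncomputable section

variable {α σ : Type}

/-- restriction to an invariant set of objects -/
def res (Y : TS α σ) (R : α → Prop)
    (h : ∀ n w q, w ∈ Y.K n → q ∈ Y.S w → (R w ↔ R (Y.ins w q))) : TS α σ where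
  K n := (Y.K n).filter R
  len := Y.len
  S := Y.S
  B := Y.B
  ins := Y.ins
  rem := Y.rem
  s := Y.s
  cf := Y.cf
  d := Y.d
  U := Y.U
  hs := Y.hs
  len_K n w hw := Y.len_K n w (mem_filter.1 hw).1
  ins_K n w q hw hq := mem_filter.2 ⟨Y.ins_K n w q (mem_filter.1 hw).1 hq,
    (h n w q (mem_filter.1 hw).1 hq).1 (mem_filter.1 hw).2⟩
  ins_B n w q hw hq := Y.ins_B n w q (mem_filter.1 hw).1 hq
  rem_ins n w q hw hq := Y.rem_ins n w q (mem_filter.1 hw).1 hq
  rem_le n w q hw hq := Y.rem_le n w q (mem_filter.1 hw).1 hq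
  rem_K n w q hw hq := by
    obtain ⟨h1, h2⟩ := mem_filter.1 hw
    have h3 := Y.rem_K n w q h1 hq
    have h4 := Y.rem_S n w q h1 hq
    have h5 := h (n - Y.s) (Y.rem w q) q h3 h4
    rw [Y.ins_rem n w q h1 hq] at h5
    exact mem_filter.2 ⟨h3, h5.2 h2⟩
  rem_S n w q hw hq := Y.rem_S n w q (mem_filter.1 hw).1 hq
  ins_rem n w q hw hq := Y.ins_rem n w q (mem_filter.1 hw).1 hq
  disj n w q hw hq := Y.disj n w q (mem_filter.1 hw).1 hq
  cf_symm := Y.cf_symm
  ins_S n w q q' hw hq hc := Y.ins_S n w q q' (mem_filter.1 hw).1 hq hc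
  ins_BB n w q q' hw hq hc := Y.ins_BB n w q q' (mem_filter.1 hw).1 hq hc
  ins_comm n w q q' hw hq hq' hc := Y.ins_comm n w q q' (mem_filter.1 hw).1 hq hq' hc
  S_U n N w hw hn := Y.S_U n N w (mem_filter.1 hw).1 hn
  deg := Y.deg

end

end Pool.Agent.N226.KZ
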