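import Pool.Agent.N226.KZ.Res
import Pool.Agent.N578.EG.Kni
import Pool.Agent.N712.EG.KNC
import Pool.Agent.N953.EG.Geo3
import Pool.Agent.N558.EG.WK3
import Pool.Agent.N929.EG.Pt
import Pool.Agent.H246KN.GEN

/-!
# Polygons of given knot types as a system of local moves
-/

set_option autoImplicit false
set_option linter.unusedVariables false

namespace Pool.Agent.N226.KZ

open Finset Filter Topology KN Pool.Agent.N929.EG
open TH966.KO (SS mem_SS)
open Pool.Agent.N578.EG (path_inj)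
open scoped Classical

/-! ### unit squares -/

/-- a unit square in the plane of the last two axes -/
def sqb : List Dir := [.ym, .zm, .yp, .zp]

theorem sq_words : ∀ x y z t : Dir, pos [x, y, z, t] = 0 → (path [x, y, z, t]).tail.Nodup →
    ∃ i j k : Fin 4,
      [x, y, z, t] = ((sqw.map (rx^[(i : ℕ)])).map (rz^[(j : ℕ)])).rotate (k : ℕ) ∨
      [x, y, z, t] = ((sqb.map (rx^[(i : ℕ)])).map (rz^[(j : ℕ)])).rotate (k : ℕ) := by
  decide +kernel

theorem iter_map {Q : List Dir → Prop} (f : Dir → Dir)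
    (h : ∀ w, SAP w → SAP (w.map f) ∧ (Q w ↔ Q (w.map f))) :
    ∀ (n : ℕ) (w : List Dir), SAP w → SAP (w.map f^[n]) ∧ (Q w ↔ Q (w.map f^[n])) := by
  intro n
  induction n with
  | zero => intro w hw; simpa using hw
  | succ n ih =>
    intro w hw
    obtain ⟨h1, h2⟩ := h w hw
    obtain ⟨h3, h4⟩ := ih _ h1
    rw [List.map_map] at h3 h4
    rw [Function.iterate_succ]
    exact ⟨h3, h2.trans h4⟩

theorem sap_sqb : SAP sqb := ⟨by decide, by decide, by decide⟩

theorem site_sqw : site sqw 0 .yp := ⟨by decide, by decide, by decide, by decide⟩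

theorem site_sqb : site sqb 3 .xp := ⟨by decide, by decide, by decide, by decide⟩

theorem q_sqb {Q : List Dir → Prop} (hQ : KClass Q) : Q sqw ↔ Q sqb := by
  have h1 := GEN.inv_of Q hQ sqw c_sq.2.1 0 .yp site_sqw
  have h2 := GEN.inv_of Q hQ sqb sap_sqb 3 .xp site_sqb
  have e : ins sqw 0 .yp = ins sqb 3 .xp := by decide
  rw [h1, h2, e]

theorem q_sq {Q : List Dir → Prop} (hQ : KClass Q) {w : List Dir} (hw : SAP w)
    (h4 : w.length = 4) : Q sqw ↔ Q w := by
  have hx : ∀ w, SAP w → SAP (w.map rx) ∧ (Q w ↔ Q (w.map rx)) := fun w hw => by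
    obtain ⟨h1, h2⟩ := (c_words w hw).1
    exact ⟨h1, hQ.same _ _ hw h1 h2, hQ.same _ _ h1 hw h2.symm⟩
  have hz : ∀ w, SAP w → SAP (w.map rz) ∧ (Q w ↔ Q (w.map rz)) := fun w hw => by
    obtain ⟨h1, h2⟩ := (c_words w hw).2.1
    exact ⟨h1, hQ.same _ _ hw h1 h2, hQ.same _ _ h1 hw h2.symm⟩
  have key : ∀ s : List Dir, SAP s → ∀ i j k : ℕ,
      (Q s ↔ Q (((s.map (rx^[i])).map (rz^[j])).rotate k)) := by
    intro s hs i j k
    obtain ⟨a1, a2⟩ := iter_map rx hx i s hs
    obtain ⟨b1, b2⟩ := iter_map rz hz j _ a1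
    exact a2.trans (b2.trans (GEN.rot_of Q hQ _ b1 k))
  match w, h4 with
  | [x, y, z, t], _ =>
    obtain ⟨-, h5, h6⟩ := hw
    obtain ⟨i, j, k, e | e⟩ := sq_words x y z t h5 h6
    · rw [e]
      exact key sqw c_sq.2.1 i j k
    · rw [e, q_sqb hQ]
      exact key sqb sap_sqb i j k

/-! ### the objects -/

noncomputable section

/-- the walk `w` closes up to a polygon of class `Q` (for walks of one step: a unit square is in
the class `Q`) -/
def RQ (Q : List Dir → Prop) (w : List Z3) : Prop :=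
  ∃ (u : List Dir) (d : Dir), w = (path u).reverse ∧ pos u + vec d = 0 ∧
    (if u.length = 1 then Q sqw else Q (d :: u))

theorem rq_iff (Q : List Dir → Prop) (u : List Dir) : RQ Q (path u).reverse ↔
    ∃ d, pos u + vec d = 0 ∧ (if u.length = 1 then Q sqw else Q (d :: u)) := by
  constructor
  · rintro ⟨v, d, h1, h2, h3⟩
    have h4 := path_inj u v (List.reverse_injective h1)
    subst h4
    exact ⟨d, h2, h3⟩
  · rintro ⟨d, h2, h3⟩
    exact ⟨u, d, rfl, h2, h3⟩

theorem sap_cons {d : Dir} {u : List Dir} (h3 : 3 ≤ u.length) (hs : SAW u)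
    (hc : pos u + vec d = 0) : SAP (d :: u) :=
  ⟨by rw [List.length_cons]; omega, hc, hs⟩

/-- the last vertex does not change -/
theorem last_rep' {Ver : Type} {o : Ver} {A : Ver → Ver → Prop} {U U' w : List Ver}
    (h : Pair A U U') (hw : Walk o A w) (hf : Free U U' w) :
    (rep w U U').getLast? = w.getLast? := by
  obtain ⟨L, R, h1, h2, -, -, -⟩ := rep_all h hw hf
  obtain ⟨⟨p, r, X, X', e1, e2, -, -⟩, -⟩ := h
  have e : ∀ Q : List Ver, (L ++ (p :: (Q ++ [r])) ++ R).getLast? = (r :: R).getLast? := by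
    intro Q
    have h3 : L ++ (p :: (Q ++ [r])) ++ R = (L ++ (p :: Q)) ++ r :: R := by simp
    rw [h3, List.getLast?_append_cons]
  rw [h2, h1, e1, e2, e, e]

theorem getLast_path (u : List Dir) : ((path u).reverse).getLast? = some (pos u) := by
  obtain ⟨l, hl⟩ := Pool.Agent.N558.EG.path_head u
  rw [hl, List.getLast?_reverse]
  rfl

/-- the system of moves for the polygons of class `Q` -/
structure SysQ (Q : List Dir → Prop) (Y : TS (List Z3) (List Z3 × List Z3)) : Prop where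
  s : Y.s = 2
  K : ∀ n w, w ∈ Y.K n ↔ ∃ u ∈ SS n, w = (path u).reverse ∧ RQ Q w
  fr : ∀ n u, u ∈ SS n → KN.fr u ≤ (Y.S (path u).reverse).card
  bu : ∀ n u, u ∈ SS n → KN.bu u ≤ (Y.B (path u).reverse).card

theorem sysQ (Q : List Dir → Prop) (hQ : KClass Q) :
    ∃ Y : TS (List Z3) (List Z3 × List Z3), SysQ Q Y := by
  obtain ⟨X, Z, hX, hs, hT⟩ := Pool.Agent.N953.EG.geo3
  obtain ⟨Y, h1, h2, h3, h4, h5, h6⟩ := s_win Z3 X A3 Z
  have hK : ∀ n w, w ∈ Y.K n ↔ ∃ u ∈ SS n, w = (path u).reverse := by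
    intro n w
    rw [h3, hX]
    exact Pool.Agent.N558.EG.wk3 n w
  have hR : ∀ n w q, w ∈ Y.K n → q ∈ Y.S w → (RQ Q w ↔ RQ Q (Y.ins w q)) := by
    intro n w q hw hq
    have hw' := Y.ins_K n w q hw hq
    have hwk := (h3 n w).1 hw
    rw [h4] at hq
    have hl := last_rep' (U := q.1) (U' := q.2) (Z.pair _ _ hq.1) hwk.2 hq.2
    rw [← h6] at hl
    obtain ⟨u, hu, e1⟩ := (hK n w).1 hw
    obtain ⟨u', hu', e2⟩ := (hK _ _).1 hw'
    have hpos : pos u' = pos u := by
      rw [e2, e1, getLast_path, getLast_path] at hl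
      exact Option.some.inj hl
    obtain ⟨hn, hsaw⟩ := mem_SS.1 hu
    obtain ⟨hn', hsaw'⟩ := mem_SS.1 hu'
    rw [h1, hs] at hn'
    have e3 : (path u').reverse = rep (path u).reverse q.1 q.2 := by
      rw [← e2, ← e1, h6]
    rw [e2, e1, rq_iff, rq_iff]
    refine exists_congr fun d => ?_
    rw [hpos]
    refine and_congr_right fun hc => ?_
    have hpar := even_of_closed (w := d :: u) hc
    rw [List.length_cons] at hpar
    rcases Nat.lt_or_ge n 3 with h | h
    · have hn1 : n = 1 := by omega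
      rw [if_pos (by omega), if_neg (by omega)]
      exact q_sq hQ (sap_cons (by omega) hsaw' (by rw [hpos]; exact hc))
        (by rw [List.length_cons]; omega)
    · rw [if_neg (by omega), if_neg (by omega)]
      rw [hT, e1] at hq
      exact Pool.Agent.N578.EG.kni Q (GEN.inv_of Q hQ) n d u u' hu h hc q.1 q.2 hq.1 hq.2 e3
  refine ⟨res Y (RQ Q) hR, h1.trans hs, ?_, ?_, ?_⟩
  · intro n w
    show w ∈ (Y.K n).filter (RQ Q) ↔ _
    rw [mem_filter, hK]
    constructor
    · rintro ⟨⟨u, hu, e⟩, hr⟩; exact ⟨u, hu, e, hr⟩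
    · rintro ⟨u, hu, e, hr⟩; exact ⟨⟨u, hu, e⟩, hr⟩
  · intro n u hu
    show _ ≤ (Y.S (path u).reverse).card
    exact (Pool.Agent.N546.EG.cnt3 n u hu (Y.S (path u).reverse)).1 (fun q => by rw [h4, hT])
  · intro n u hu
    show _ ≤ (Y.B (path u).reverse).card
    exact (Pool.Agent.N546.EG.cnt3 n u hu (Y.B (path u).reverse)).2 (fun q => by rw [h5, hT])

/-! ### numbers of objects -/

variable {Q : List Dir → Prop} {Y : TS (List Z3) (List Z3 × List Z3)}

theorem card_eq (H : SysQ Q Y) {n : ℕ} (hn : 3 ≤ n) : (Y.K n).card = a Q (n + 1) := by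
  unfold a
  symm
  refine card_bij (fun w _ => (path w.tail).reverse) ?_ ?_ ?_
  · intro w hw
    obtain ⟨d, u, rfl, hu, hc, hq⟩ := (Pool.Agent.N712.EG.knk Q n w hn).1 hw
    rw [H.K]
    refine ⟨u, hu, rfl, (rq_iff Q u).2 ⟨d, hc, ?_⟩⟩
    rw [if_neg (by have := (mem_SS.1 hu).1; omega)]
    exact hq
  · intro w hw w' hw' h
    obtain ⟨d, u, rfl, hu, hc, hq⟩ := (Pool.Agent.N712.EG.knk Q n w hn).1 hw
    obtain ⟨d', u', rfl, hu', hc', hq'⟩ := (Pool.Agent.N712.EG.knk Q n w' hn).1 hw'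
    have h1 : u = u' := path_inj u u' (List.reverse_injective h)
    subst h1
    rw [← hc'] at hc
    rw [KN.vec_inj (add_left_cancel hc)]
  · intro w hw
    obtain ⟨u, hu, e, hr⟩ := (H.K n w).1 hw
    subst e
    obtain ⟨d, hc, hq⟩ := (rq_iff Q u).1 hr
    rw [if_neg (by have := (mem_SS.1 hu).1; omega)] at hq
    exact ⟨d :: u, (Pool.Agent.N712.EG.knk Q n _ hn).2 ⟨d, u, rfl, hu, hc, hq⟩, rfl⟩

theorem a_odd (Q : List Dir → Prop) {n : ℕ} (hn : n % 2 = 1) : a Q n = 0 := by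
  unfold a
  rw [card_eq_zero, eq_empty_iff_forall_notMem]
  intro w hw
  obtain ⟨h1, h2, -⟩ := mem_K.1 hw
  have := even_of_closed h2.2.1
  omega

/-- the pattern theorem -/
theorem patQ (hQ : KClass Q) (hne : ∃ w, SAP w ∧ Q w) (H : SysQ Q Y) : Pat Y (gr Q) := by
  obtain ⟨g1, -, g2⟩ := gr_bounds Q hQ hne
  obtain ⟨θ, C, hθ0, hθ1, hbad⟩ := class_pattern Q hQ hne
  have hμ : 0 < gr Q := by linarith
  have hθμ : 0 < θ * gr Q := mul_pos hθ0 hμ
  obtain ⟨N0, hN0⟩ : ∃ N0 : ℕ, N0 = 12 * 10 ^ 7 := ⟨_, rfl⟩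
  obtain ⟨C', hC'⟩ : ∃ C' : ℝ, C' = |C| * (θ * gr Q) +
      ∑ m ∈ range N0, ((Y.K m).card : ℝ) / (θ * gr Q) ^ m := ⟨_, rfl⟩
  have hsum0 : 0 ≤ ∑ m ∈ range N0, ((Y.K m).card : ℝ) / (θ * gr Q) ^ m :=
    sum_nonneg fun m _ => by positivity
  refine ⟨2 * 10 ^ 7, θ, C', by norm_num, hθ0, hθ1, ?_, fun n => ?_⟩
  · rw [hC']
    positivity
  · rcases Nat.lt_or_ge n N0 with hn | hn
    · have e1 : ((Pool.Agent.N929.EG.bad Y (2 * 10 ^ 7) n).card : ℝ) ≤ (Y.K n).card := by
        exact_mod_cast card_filter_le _ _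
      have e2 : ((Y.K n).card : ℝ) / (θ * gr Q) ^ n ≤
          ∑ m ∈ range N0, ((Y.K m).card : ℝ) / (θ * gr Q) ^ m :=
        single_le_sum (f := fun m => ((Y.K m).card : ℝ) / (θ * gr Q) ^ m)
          (fun m _ => by positivity) (mem_range.2 hn)
      have e3 : ((Y.K n).card : ℝ) / (θ * gr Q) ^ n ≤ C' := by
        rw [hC']
        have : 0 ≤ |C| * (θ * gr Q) := by positivity
        linarith
      rw [div_le_iff₀ (by positivity)] at e3
      linarith
    · have hn3 : 3 ≤ n := by omega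
      have e1 : ((Pool.Agent.N929.EG.bad Y (2 * 10 ^ 7) n).card : ℝ) ≤ KN.bad Q (n + 1) := by
        unfold KN.bad
        have e2 : Pool.Agent.N929.EG.bad Y (2 * 10 ^ 7) n ⊆ ((KN.K Q (n + 1)).filter
            (fun w => 10 ^ 7 * KN.fr w ≤ n + 1 ∨ 10 ^ 7 * KN.bu w ≤ n + 1)).image
            (fun w => (path w.tail).reverse) := by
          intro w hw
          unfold Pool.Agent.N929.EG.bad at hw
          rw [mem_filter] at hw
          obtain ⟨hw1, hw2⟩ := hw
          obtain ⟨u, hu, e, hr⟩ := (H.K n w).1 hw1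
          subst e
          obtain ⟨d, hc, hq⟩ := (rq_iff Q u).1 hr
          rw [if_neg (by have := (mem_SS.1 hu).1; omega)] at hq
          rw [mem_image]
          refine ⟨d :: u, mem_filter.2
            ⟨(Pool.Agent.N712.EG.knk Q n _ hn3).2 ⟨d, u, rfl, hu, hc, hq⟩, ?_⟩, rfl⟩
          obtain ⟨b1, b2⟩ := Pool.Agent.N712.EG.knc n d u hu hn3 hc
          have b3 := H.fr n u hu
          have b4 := H.bu n u hu
          rcases hw2 with hw2 | hw2
          · left
            omega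
          · right
            omega
        exact_mod_cast (card_le_card e2).trans card_image_le
      refine e1.trans ((hbad (n + 1)).trans ?_)
      rw [pow_succ]
      have e5 : C * (θ * gr Q) ≤ C' := by
        rw [hC']
        have := mul_le_mul_of_nonneg_right (le_abs_self C) hθμ.le
        linarith
      calc C * ((θ * gr Q) ^ n * (θ * gr Q)) = C * (θ * gr Q) * (θ * gr Q) ^ n := by ring
        _ ≤ C' * (θ * gr Q) ^ n := mul_le_mul_of_nonneg_right e5 (by positivity)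

end

end Pool.Agent.N226.KZ
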